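import Pool.Agent.H23.GZ.Targets5
import Pool.Agent.H1.GZ.THW

/-!
Row SHP of the board gz: integrability over the shell for all parameters.
-/

set_option autoImplicit false

namespace Pool.Agent.H5.GZ

open MeasureTheory Pool.Agent.H34.GM Pool.Agent.H34.GZ Pool.Agent.H1.GZ Pool.Agent.H17.GM

/-- SHP -/
theorem pf_SHP : T_PWC → T_MSR → T_HAR → T_SHP := by
  intro hPWC hMSR _ m h1m mu _
  obtain ⟨Cp, A, hCp, hpw⟩ := pw_bound h1m mu
  obtain ⟨-, -, -, -, -, a6, -, -⟩ := hMSR.1 m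
  refine ⟨m ^ 2 + 1 + A, ?_, ?_⟩
  · have h1 : AEStronglyMeasurable (fun z : V m => pw mu (mt z)) ((hm m).restrict (Shell m)) :=
      th1_pwmeas hPWC h1m mu a6 (fun z hz => th1_det_ne h1m hz)
    have h2 : Continuous fun z : V m => (1 + sz (mt z)) ^ (-((m ^ 2 + 1 + A : ℕ) : ℝ)) := by
      change Continuous fun z : V m => (1 + ‖z‖) ^ (-((m ^ 2 + 1 + A : ℕ) : ℝ))
      refine (continuous_const.add continuous_norm).rpow_const fun z => Or.inl ?_
      have h0 : (0 : ℝ) ≤ ‖z‖ := norm_nonneg z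
      exact (show (0 : ℝ) < 1 + ‖z‖ by linarith).ne'
    exact h2.aestronglyMeasurable.mul h1.norm
  · rw [hasFiniteIntegral_iff_norm]
    refine lt_of_le_of_lt (b := ENNReal.ofReal Cp * ENNReal.ofReal (∫ z, dcf m z)) ?_
      (ENNReal.mul_lt_top ENNReal.ofReal_lt_top ENNReal.ofReal_lt_top)
    calc _ ≤ ∫⁻ z in Shell m, ENNReal.ofReal (Cp * dcf m z) ∂(hm m) := by
          refine setLIntegral_mono' a6 fun z hz => ?_
          apply ENNReal.ofReal_le_ofReal
          have h3 := hpw (mt z) (gb_one_le_det h1m hz.1)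
          have e0 : sz (mt z) = ‖z‖ := rfl
          rw [e0] at h3
          have h4 : (1 + ‖z‖) ^ (-((m ^ 2 + 1 + A : ℕ) : ℝ)) * (1 + ‖z‖) ^ A = dcf m z := by
            unfold dcf
            rw [← Real.rpow_natCast (1 + ‖z‖) A, ← Real.rpow_add (by positivity)]
            congr 1
            push_cast
            ring
          have hp : 0 ≤ (1 + ‖z‖) ^ (-((m ^ 2 + 1 + A : ℕ) : ℝ)) := by positivity
          rw [e0, Real.norm_of_nonneg (mul_nonneg hp (norm_nonneg _))]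
          calc (1 + ‖z‖) ^ (-((m ^ 2 + 1 + A : ℕ) : ℝ)) * ‖pw mu (mt z)‖
              ≤ (1 + ‖z‖) ^ (-((m ^ 2 + 1 + A : ℕ) : ℝ)) * (Cp * (1 + ‖z‖) ^ A) :=
                mul_le_mul_of_nonneg_left h3 hp
            _ = Cp * ((1 + ‖z‖) ^ (-((m ^ 2 + 1 + A : ℕ) : ℝ)) * (1 + ‖z‖) ^ A) := by ring
            _ = Cp * dcf m z := by rw [h4]
      _ ≤ ∫⁻ z, ENNReal.ofReal (Cp * dcf m z) := shell_le hMSR h1m _
      _ = ENNReal.ofReal Cp * ENNReal.ofReal (∫ z, dcf m z) := by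
          rw [← dcf_lint m, ← lintegral_const_mul' _ _ ENNReal.ofReal_ne_top]
          refine lintegral_congr fun z => ?_
          rw [ENNReal.ofReal_mul hCp.le]

end Pool.Agent.H5.GZ
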